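import Pool.Agent.Work.MP_52dd0f_uf.Final

universe u

open SCO

/-- Let `N` be a separable II₁ factor such that, for some `r ≠ 1`, `N` and its amplification
`K = N^r` have `*`-isomorphic ultrapowers (`N^𝒱 ≅ Q ≅ K^𝒲` for some ultrafilters `𝒱`, `𝒲` on some
sets `I`, `J` with the discrete topology; by the Keisler-Shelah theorem this means that `N` and
`N^r` are elementarily equivalent). Then all amplifications of `N` have the same number of
sequential commutation orbits. The case of principal ultrafilters is the case `N ≅ N^r`. -/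
theorem Pool.Agent.Results.MP_52dd0f_an.IsoUltrapowers.result (𝒰 : Ultrafilter ℕ)
    (h𝒰 : ∀ k : ℕ, 𝒰 ≠ pure k) (N K Q : Type u) [CStarAlgebra N] [CStarAlgebra K] [CStarAlgebra Q]
    (τ : N →ₗ[ℂ] ℂ) (κ : K →ₗ[ℂ] ℂ) (hN : IsII₁Factor N τ) (hsep : IsSeparable₂ τ)
    (hK : IsII₁Factor K κ) (r : ℝ) (hr : r ≠ 1) (hNK : IsAmplification N τ K r)
    (I J : Type u) [TopologicalSpace I] [DiscreteTopology I] [TopologicalSpace J]
    [DiscreteTopology J] (𝒱 : Ultrafilter I) (𝒲 : Ultrafilter J)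
    (hNQ : IsUltrapower 𝒱 τ Q) (hKQ : IsUltrapower 𝒲 κ Q)
    (M : Type u) [CStarAlgebra M] (σ : M →ₗ[ℂ] ℂ) (hM : IsII₁Factor M σ) (t : ℝ)
    (ht : IsAmplification N τ M t) : numOrbits 𝒰 σ = numOrbits 𝒰 τ :=
  main_ultra h𝒰 hN hK hM hsep hr hNK hNQ hKQ ht
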