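import Pool.Agent.Work.MP_52dd0f_an.Main

universe u

open SCO

/-- The number of sequential commutation orbits of the amplifications `N^t` of a separable II₁
factor `N` is non-increasing in `t`. -/
theorem Pool.Agent.Results.MP_52dd0f_an.Monotone.result (𝒰 : Ultrafilter ℕ)
    (h𝒰 : ∀ k : ℕ, 𝒰 ≠ pure k) (N M M' : Type u) [CStarAlgebra N] [CStarAlgebra M]
    [CStarAlgebra M'] (τ : N →ₗ[ℂ] ℂ) (σ : M →ₗ[ℂ] ℂ) (σ' : M' →ₗ[ℂ] ℂ)
    (hN : IsII₁Factor N τ) (hsep : IsSeparable₂ τ) (hM : IsII₁Factor M σ)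
    (hM' : IsII₁Factor M' σ') (t s : ℝ) (ht : IsAmplification N τ M t)
    (hs : IsAmplification N τ M' s) (hts : t ≤ s) : numOrbits 𝒰 σ' ≤ numOrbits 𝒰 σ :=
  main_mono h𝒰 hN hM hM' hsep ht hs hts
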