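import Pool.Agent.Work.MP_52dd0f_nd.AllE

universe u

open SCO

/-- If `N^s` has exactly one sequential commutation orbit for one `s`, then for every `t`, with `M = N^t`, there is a
constant `C` such that any two Haar unitaries `u`, `v` of the ultrapower of `M` are joined, for all `n`, by a chain of
`C * (n + 1) + C` steps between commuting elements `s w s⁻¹` of the ultrapower, `w` a Haar unitary and `s`, `s⁻¹` within
`2^(-2^n)` of `1`; the first `C * (n + 1)` steps are between Haar unitaries and lead up to `2^(-2^n)` of `v`. -/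
theorem Pool.Agent.Results.MP_52dd0f_an.NormDense.result (𝒰 : Ultrafilter ℕ)
    (h𝒰 : ∀ k : ℕ, 𝒰 ≠ pure k) (N M M' : Type u) [CStarAlgebra N] [CStarAlgebra M]
    [CStarAlgebra M'] (τ : N →ₗ[ℂ] ℂ) (σ : M →ₗ[ℂ] ℂ) (σ' : M' →ₗ[ℂ] ℂ)
    (hN : IsII₁Factor N τ) (hM : IsII₁Factor M σ) (hM' : IsII₁Factor M' σ') (t s : ℝ)
    (ht : IsAmplification N τ M t) (hs : IsAmplification N τ M' s) (hone : numOrbits 𝒰 σ' = 1) :
    ∃ C : ℕ, ∀ u v : ℕ → M, IsHaarU 𝒰 σ u → IsHaarU 𝒰 σ v → ∀ n : ℕ,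
      ∃ x : ℕ → ℕ → M, x 0 = u ∧ x (C * (n + 1) + C) = v ∧
        (∀ i < C * (n + 1), Step 𝒰 σ (x i) (x (i + 1))) ∧
        (∀ k, ‖x (C * (n + 1)) k - v k‖ ≤ (1 / 2 : ℝ) ^ (2 ^ n)) ∧
        ∀ i < C * (n + 1) + C, StepE 𝒰 σ ((1 / 2 : ℝ) ^ (2 ^ n)) (x i) (x (i + 1)) :=
  ND.main_star h𝒰 hN hM hM' ht hs hone
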