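import Pool.Agent.Work.MP_52dd0f_an_helper59.Short

universe u

open SCO

/-- If every two Haar unitaries of the II₁ factor `N` are linked by a chain with at most three
intermediate Haar unitaries of the ultrapower, then every amplification of `N` has exactly one
sequential commutation orbit, like `N` itself. -/
theorem Pool.Agent.Results.MP_52dd0f_an.ShortChains.result (𝒰 : Ultrafilter ℕ)
    (h𝒰 : ∀ k : ℕ, 𝒰 ≠ pure k) (N M : Type u) [CStarAlgebra N] [CStarAlgebra M]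
    (τ : N →ₗ[ℂ] ℂ) (σ : M →ₗ[ℂ] ℂ) (hN : IsII₁Factor N τ) (hM : IsII₁Factor M σ)
    (hshort : ∀ u v : Haar τ, ∃ w₁ w₂ w₃ : ℕ → N, Step 𝒰 τ (fun _ => (u.1 : N)) w₁ ∧
      Step 𝒰 τ w₁ w₂ ∧ Step 𝒰 τ w₂ w₃ ∧ Step 𝒰 τ w₃ (fun _ => (v.1 : N))) (t : ℝ)
    (ht : IsAmplification N τ M t) : numOrbits 𝒰 σ = 1 ∧ numOrbits 𝒰 τ = 1 :=
  main_short h𝒰 hN hM hshort ht
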